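import Pool.Agent.Helper4.SLC.Pos
import Pool.Agent.Helper4.SLC.Neg

/-!
# The simple loop property for central extensions and polycyclic groups: the exact threshold

If `G` has a chain of `m` subgroups with cyclic factors which ends in a group `N m` with a
homomorphism with central kernel to an abelian group generated by `n` elements, and
`2 m + n < 2 g`, then every homomorphism from the fundamental group of the closed orientable
surface of genus `g` to `G` kills an essential simple closed curve. For every `m ≤ g` and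
`n = 2 g - 2 m` this fails for one and the same group, the integral Heisenberg group `HG g` of rank
`2 g + 1`.
-/

open Function Pool.Agent.Helper78.SLC Pool.Agent.Helper4.SLC

namespace Pool.Agent.Results.MP_f16733_gt.CentralChainThreshold

theorem result (g : ℕ) (hg : 2 ≤ g) :
    (∀ (G : Type) [Group G] (m n : ℕ) (N : ℕ → Subgroup G), 2 * m + n < 2 * g → N 0 = ⊤ →
      (∀ i < m, N (i + 1) ≤ N i ∧ ∃ _ : ((N (i + 1)).subgroupOf (N i)).Normal,
        IsCyclic (N i ⧸ (N (i + 1)).subgroupOf (N i))) →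
      (∃ (A : Type) (_ : CommGroup A) (ρ : N m →* A) (s : Fin n → A),
        Subgroup.closure (Set.range s) = ⊤ ∧ ∀ x ∈ ρ.ker, ∀ y : N m, x * y = y * x) →
      ∀ f : SG g →* G, ∃ x : SG g, IsCurve g x ∧ x ≠ 1 ∧ f x = 1) ∧
    (∀ (x : HG g) (n : ℕ), 0 < n → x ^ n = 1 → x = 1) ∧
    (∀ m ≤ g, ∃ (ρ : HG g →* Multiplicative (Fin m → ℤ))
      (σ : HG g →* Multiplicative (Fin (g - m) → ℤ × ℤ)), Surjective (ρ.prod σ) ∧
        ∀ x, ρ x = 1 → σ x = 1 → ∀ y, ρ y = 1 → x * y = y * x) ∧
    ∃ f : SG g →* HG g, ¬ Injective f ∧ ∀ x : SG g, IsCurve g x → f x ≠ 1 := by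
  refine ⟨fun G _ m n N hmn h0 hN hA f => ?_, fun x n => HG.torsion_free x n, chains, ?_⟩
  · obtain ⟨A, _, ρ, s, hs, hρ⟩ := hA
    refine positive g hg m n hmn N h0 (fun i hi x hx y hy => ?_) (fun i hi => ?_) ρ s hs hρ f
    · obtain ⟨hle, hnor, _⟩ := hN i hi
      have h1 := hnor.conj_mem ⟨y, hle hy⟩ (by
        rw [Subgroup.mem_subgroupOf]
        exact hy) ⟨x, hx⟩
      rw [Subgroup.mem_subgroupOf] at h1
      exact h1
    · obtain ⟨hle, hnor, hcyc⟩ := hN i hi
      obtain ⟨q, hq⟩ := hcyc.exists_generator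
      obtain ⟨s, rfl⟩ := QuotientGroup.mk_surjective q
      refine ⟨s, s.2, fun x hx => ?_⟩
      obtain ⟨k, hk⟩ := Subgroup.mem_zpowers_iff.1 (hq ((⟨x, hx⟩ : N i) : N i ⧸ _))
      refine ⟨k, ?_⟩
      rw [← QuotientGroup.mk_zpow, QuotientGroup.eq, Subgroup.mem_subgroupOf] at hk
      exact hk
  · obtain ⟨f, hfa, hfb⟩ := exists_f (g := g) (by omega)
    exact ⟨f, negative hg f hfa hfb⟩

end Pool.Agent.Results.MP_f16733_gt.CentralChainThreshold
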