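import Pool.Agent.Helper4.SLC.Crit

/-!
# Simple loops in kernels of maps to groups with infinite cyclic central commutator subgroup

Let `c` be a central element of infinite order of `G` such that all commutators of `G` are powers of
`c` (for example a Heisenberg group, or the fundamental group of a circle bundle over a torus of any
dimension). A homomorphism `f` from the fundamental group of the closed orientable surface of genus
`g ≥ 2` to `G` kills no essential simple closed curve if and only if its commutator form is `d` times
an integral form which is congruent modulo `g` to `s` times the intersection form, with `d ≠ 0` and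
`s` prime to `g`.
-/

open scoped commutatorElement
open Pool.Agent.Helper78.SLC

namespace Pool.Agent.Results.MP_f16733_gt.HeisenbergCriterion

theorem result (g : ℕ) (hg : 2 ≤ g) (G : Type) [Group G] (c : G)
    (hc : ∀ x : G, c * x = x * c) (hinf : ∀ n : ℤ, c ^ n = 1 → n = 0)
    (hcomm : ∀ x y : G, ∃ n : ℤ, ⁅x, y⁆ = c ^ n) (f : SG g →* G) :
    (∀ x : SG g, IsCurve g x → f x ≠ 1) ↔
      ∃ d s : ℤ, d ≠ 0 ∧ IsCoprime s g ∧ ∀ i j : Fin g,
        (∃ k : ℤ, ⁅f (ga i), f (ga j)⁆ = c ^ (d * g * k)) ∧
        (∃ k : ℤ, ⁅f (gb i), f (gb j)⁆ = c ^ (d * g * k)) ∧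
        ∃ k : ℤ, ⁅f (ga i), f (gb j)⁆ = c ^ ((if i = j then d * s else 0) + d * g * k) :=
  Pool.Agent.Helper4.SLC.criterion g hg c hc hinf hcomm f

end Pool.Agent.Results.MP_f16733_gt.HeisenbergCriterion
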