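import Pool.Agent.Helper4.SLC.TBMain

/-!
# The simple loop property fails in dimension four, already for torus bundles over the torus

`TB = ℤ² ⋊ ℤ²`, where `(i, j)` acts by `(a, b) ↦ (-1)^j (a, b + 2 i a)`, is the fundamental group of
a torus bundle over the torus, a closed orientable aspherical four-manifold. It does not have the
simple loop property for the surface of genus two, and it has it for every genus at least three.
-/

open Function Pool.Agent.Helper78.SLC Pool.Agent.Helper4.SLC

namespace Pool.Agent.Results.MP_f16733_gt.SolvableDimensionFour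

theorem result :
    (∀ (x : TB) (n : ℕ), 0 < n → x ^ n = 1 → x = 1) ∧
    (∃ f : SG 2 →* TB, Surjective f ∧ ¬ Injective f ∧ ∀ x : SG 2, IsCurve 2 x → f x ≠ 1) ∧
    ∀ g : ℕ, 3 ≤ g → ∀ f : SG g →* TB, ∃ x : SG g, IsCurve g x ∧ x ≠ 1 ∧ f x = 1 :=
  ⟨fun x n => TB.torsion_free x n, tb_two, tb_three⟩

end Pool.Agent.Results.MP_f16733_gt.SolvableDimensionFour
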